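import Pool.Agent.Y571.NC.Core2
import Pool.Agent.Y171.NC.Reach
import Pool.Agent.Y145.NC.PFam

/-!
# MP_d87a8f_pr: random Cayley graphs of nearly abelian groups with `k ≫ log |G|` generators

The law of the walk, its total variation distance `tvDist`, the entropic time `t0`, `tStar` and
`CutoffWhpAt` are those of `Pool.Agent.H632R3.RCG`.
-/

set_option autoImplicit false

open Filter Topology
open Pool.Agent.H632R3.RCG

namespace Pool.Agent.Results.MP_d87a8f_pr.NearlyAbelianGroups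

/-- `G j` has a subgroup `B j` of index `κ j ^ o(1)`, `κ = k / log |G|`, whose commutators lie in
a normal subgroup `N j` of `G j` of order `|G j| ^ o(1)`. (For instance `N j` trivial and `B j`
abelian of bounded index.) -/
def NearlyAbelian (G : ℕ → Type) [∀ j, Group (G j)] (k : ℕ → ℕ) : Prop :=
  ∃ N B : ∀ j, Subgroup (G j), (∀ j, (N j).Normal) ∧
    (∀ j, ∀ a ∈ B j, ∀ b ∈ B j, a * b * a⁻¹ * b⁻¹ ∈ N j) ∧
    Tendsto (fun j => Real.log (B j).index / Real.log (k j / Real.log (Nat.card (G j)))) atTop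
      (𝓝 0) ∧
    Tendsto (fun j => Real.log (Nat.card (N j)) / Real.log (Nat.card (G j))) atTop (𝓝 0)

/-- The time `log |G| / log (k / log |G|)`. -/
noncomputable def tAb (G : Type) (k : ℕ) : ℝ :=
  Real.log (Nat.card G) / Real.log (k / Real.log (Nat.card G))

/-- For every `s < 1` and all choices of the generators the total variation distance at all times
up to `s log |G| / log (k / log |G|)` is close to one. -/
def FarBefore (G : ℕ → Type) [∀ j, Group (G j)] [∀ j, Fintype (G j)] (k : ℕ → ℕ) : Prop :=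
  ∀ s : ℝ, s < 1 → ∀ δ : ℝ, 0 < δ → ∀ᶠ j in atTop, ∀ (Z : Fin (k j) → G j) (t : ℝ), 0 ≤ t →
    t ≤ s * tAb (G j) (k j) → 1 - δ ≤ tvDist Z t

/-- For some `ε > 0` and all choices of the generators the total variation distance at time
`(1 + ε) t_*` is close to one. -/
def FarAtTStar (G : ℕ → Type) [∀ j, Group (G j)] [∀ j, Fintype (G j)] (k : ℕ → ℕ) : Prop :=
  ∃ ε : ℝ, 0 < ε ∧ ε < 1 ∧ ∀ δ : ℝ, 0 < δ → ∀ᶠ j in atTop,
    ∀ Z : Fin (k j) → G j, 1 - δ ≤ tvDist Z ((1 + ε) * tStar (G j) (k j))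

theorem far (G : ℕ → Type) [∀ j, Group (G j)] [∀ j, Fintype (G j)] (k : ℕ → ℕ)
    (hn : Tendsto (fun j => Nat.card (G j)) atTop atTop)
    (hk : Tendsto (fun j => (k j : ℝ) / Real.log (Nat.card (G j))) atTop atTop)
    (hkG : Tendsto (fun j => Real.log (k j) / Real.log (Nat.card (G j))) atTop (𝓝 0))
    (hG : NearlyAbelian G k) : FarBefore G k := by
  obtain ⟨N, B, hN, hB, hr, hm⟩ := hG
  intro s hs δ hδ
  exact Pool.Agent.Y571.NC.core2 G N B k Pool.Agent.Y171.NC.reach hB hn hk hkG hr hm hs hδ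

theorem k_tendsto (G : ℕ → Type) [∀ j, Group (G j)] [∀ j, Fintype (G j)] (k : ℕ → ℕ)
    (hn : Tendsto (fun j => Nat.card (G j)) atTop atTop)
    (hk : Tendsto (fun j => (k j : ℝ) / Real.log (Nat.card (G j))) atTop atTop) :
    Tendsto k atTop atTop := by
  rw [← tendsto_natCast_atTop_iff (R := ℝ)]
  have hell : Tendsto (fun j => Real.log (Nat.card (G j))) atTop atTop :=
    Real.tendsto_log_atTop.comp (tendsto_natCast_atTop_atTop.comp hn)
  refine tendsto_atTop_mono' _ ?_ hk
  filter_upwards [hell.eventually_ge_atTop 1] with j h1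
  exact div_le_self (Nat.cast_nonneg _) h1

/-- `t_0 (k, |G|) ≤ log |G| / log (k / log |G|)` in the regime `k ≫ log |G|`. -/
theorem t0_le_tAb (G : ℕ → Type) [∀ j, Group (G j)] [∀ j, Fintype (G j)] (k : ℕ → ℕ)
    (hn : Tendsto (fun j => Nat.card (G j)) atTop atTop)
    (hk : Tendsto (fun j => (k j : ℝ) / Real.log (Nat.card (G j))) atTop atTop) :
    ∀ᶠ j in atTop, t0 (k j) (Nat.card (G j)) ≤ tAb (G j) (k j) := by
  have hell : Tendsto (fun j => Real.log (Nat.card (G j))) atTop atTop :=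
    Real.tendsto_log_atTop.comp (tendsto_natCast_atTop_atTop.comp hn)
  have hlκ : Tendsto (fun j => Real.log (k j / Real.log (Nat.card (G j)))) atTop atTop :=
    Real.tendsto_log_atTop.comp hk
  filter_upwards [hell.eventually_ge_atTop 1, hlκ.eventually_ge_atTop 1,
    hk.eventually_ge_atTop 1, (k_tendsto G k hn hk).eventually_ge_atTop 1] with j h1 h2 h3 h4
  have hG : 0 < Real.log (Nat.card (G j)) := by linarith
  have hl : 0 < Real.log (k j / Real.log (Nat.card (G j))) := by linarith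
  have hk0 : (0 : ℝ) < k j := by exact_mod_cast h4
  have hτ0 : 0 < tAb (G j) (k j) := div_pos hG hl
  have hτκ : tAb (G j) (k j) * Real.log (k j / Real.log (Nat.card (G j))) =
      Real.log (Nat.card (G j)) := div_mul_cancel₀ _ hl.ne'
  refine Pool.Agent.Y571.NC.t0_le_of hτ0 h4 ?_
  have e1 : Real.log (k j / Real.log (Nat.card (G j))) ≤ Real.log (k j / tAb (G j) (k j)) :=
    Real.log_le_log (by linarith)
      (div_le_div_of_nonneg_left hk0.le hτ0 (div_le_self hG.le h2))
  calc Real.log (Nat.card (G j))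
      = tAb (G j) (k j) * Real.log (k j / Real.log (Nat.card (G j))) := hτκ.symm
    _ ≤ tAb (G j) (k j) * (1 + Real.log (k j / tAb (G j) (k j))) :=
      mul_le_mul_of_nonneg_left (by linarith) hτ0.le

theorem fails (G : ℕ → Type) [∀ j, Group (G j)] [∀ j, Fintype (G j)] (k : ℕ → ℕ) (C a : ℝ)
    (hn : Tendsto (fun j => Nat.card (G j)) atTop atTop)
    (hk : Tendsto (fun j => (k j : ℝ) / Real.log (Nat.card (G j))) atTop atTop)
    (hC : 0 < C) (hkN : ∀ᶠ j in atTop, (k j : ℝ) ≤ Real.log (Nat.card (G j)) ^ C)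
    (ha : a < 1)
    (hA : ∀ᶠ j in atTop, Real.log (Nat.card (Abelianization (G j))) ≤
      a * Real.log (Nat.card (G j)))
    (hG : NearlyAbelian G k) :
    Tendsto (fun j => Real.log (k j) / Real.log (Nat.card (G j))) atTop (𝓝 0) ∧
      (∃ s : ℝ, s < 1 ∧ ∀ᶠ j in atTop, tStar (G j) (k j) ≤ s * tAb (G j) (k j)) ∧
      FarBefore G k ∧ FarAtTStar G k ∧ ¬ CutoffWhpAt G k (fun j => tStar (G j) (k j)) := by
  have hk' := k_tendsto G k hn hk
  have hkG := Pool.Agent.Y571.NC.log_div_tendsto G k hk' hC hkN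
  obtain ⟨s, hs0, hs1, hs⟩ := Pool.Agent.Y571.NC.tStar_le G k hn hk hC hkN ha hA
  have hfar := far G k hn hk hkG hG
  have hT : FarAtTStar G k := by
    refine ⟨(1 - s) / 2, by linarith, by linarith, fun δ hδ => ?_⟩
    have h1 : (1 + (1 - s) / 2) * s < 1 := by nlinarith
    filter_upwards [hfar _ h1 δ hδ, hs,
      (Pool.Agent.Y571.NC.logb_tendsto G k hk' hC hkN).eventually_ge_atTop 0] with j h2 h3 h4 Z
    have h5 : 0 ≤ tStar (G j) (k j) := h4.trans (le_max_right _ _)
    refine h2 Z _ (mul_nonneg (by linarith) h5) ?_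
    rw [mul_assoc]
    exact mul_le_mul_of_nonneg_left h3 (by linarith)
  exact ⟨hkG, ⟨s, hs1, hs⟩, hfar, hT, Pool.Agent.Y571.NC.noCutoff_of G k hT⟩

theorem family (p : ℕ) (hp : p.Prime) :
    ∃ (G : ℕ → Type) (_ : ∀ m, Group (G m)) (_ : ∀ m, Fintype (G m)),
      (∀ m, Nat.card (G m) = p ^ (m * (p - 1) + 1) ∧
        Nat.card (Abelianization (G m)) ≤ p ^ 2 ∧
        ∃ B : Subgroup (G m), B.index = p ∧ ∀ a ∈ B, ∀ b ∈ B, a * b = b * a) ∧
      ∀ (m k : ℕ → ℕ) (C : ℝ), Tendsto m atTop atTop → 0 < C →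
        Tendsto (fun j => (k j : ℝ) / Real.log (Nat.card (G (m j)))) atTop atTop →
        (∀ᶠ j in atTop, (k j : ℝ) ≤ Real.log (Nat.card (G (m j))) ^ C) →
        Tendsto (fun j => Nat.card (G (m j))) atTop atTop ∧
        Tendsto (fun j => Real.log (k j) / Real.log (Nat.card (G (m j)))) atTop (𝓝 0) ∧
        (∃ s : ℝ, s < 1 ∧
          ∀ᶠ j in atTop, tStar (G (m j)) (k j) ≤ s * tAb (G (m j)) (k j)) ∧
        FarBefore (fun j => G (m j)) k ∧ FarAtTStar (fun j => G (m j)) k ∧
        ¬ CutoffWhpAt (fun j => G (m j)) k (fun j => tStar (G (m j)) (k j)) := by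
  obtain ⟨G, i1, i2, B, h⟩ := Pool.Agent.Y145.NCP.pfam p hp
  refine ⟨G, i1, i2, fun m => ⟨(h m).2.2.1, (h m).2.2.2, B m, (h m).2.1, (h m).1⟩, ?_⟩
  intro m k C hm hC hk hkN
  have hp2 : 2 ≤ p := hp.two_le
  have hn : Tendsto (fun j => Nat.card (G (m j))) atTop atTop := by
    refine tendsto_atTop_mono (fun j => ?_) hm
    rw [(h (m j)).2.2.1]
    have h1 : m j < p ^ m j := Nat.lt_pow_self (by omega)
    have h2 : p ^ m j ≤ p ^ (m j * (p - 1) + 1) := by
      refine Nat.pow_le_pow_right (by omega) ?_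
      have : m j * 1 ≤ m j * (p - 1) := Nat.mul_le_mul_left _ (by omega)
      omega
    omega
  have hell : Tendsto (fun j => Real.log (Nat.card (G (m j)))) atTop atTop :=
    Real.tendsto_log_atTop.comp (tendsto_natCast_atTop_atTop.comp hn)
  have hlκ : Tendsto (fun j => Real.log (k j / Real.log (Nat.card (G (m j))))) atTop atTop :=
    Real.tendsto_log_atTop.comp hk
  have hG : NearlyAbelian (fun j => G (m j)) k := by
    refine ⟨fun _ => ⊥, fun j => B (m j), fun _ => inferInstance, ?_, ?_, ?_⟩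
    · intro j a ha b hb
      rw [Subgroup.mem_bot, (h (m j)).1 a ha b hb]
      group
    · have h1 : Tendsto (fun j => Real.log p /
          Real.log (k j / Real.log (Nat.card (G (m j))))) atTop (𝓝 0) :=
        tendsto_const_nhds.div_atTop hlκ
      refine h1.congr fun j => ?_
      rw [(h (m j)).2.1]
    · have h1 : (fun j => Real.log (Nat.card ((⊥ : Subgroup (G (m j))))) /
          Real.log (Nat.card (G (m j)))) = fun _ => (0 : ℝ) := by
        funext j
        rw [Subgroup.card_bot]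
        simp
      rw [h1]
      exact tendsto_const_nhds
  have hA : ∀ᶠ j in atTop, Real.log (Nat.card (Abelianization (G (m j)))) ≤
      1 / 2 * Real.log (Nat.card (G (m j))) := by
    filter_upwards [hell.eventually_ge_atTop (2 * Real.log ((p : ℝ) ^ 2))] with j h1
    have hA1 : 1 ≤ Nat.card (Abelianization (G (m j))) := by
      have : Finite (Abelianization (G (m j))) :=
        Finite.of_surjective _ (QuotientGroup.mk_surjective)
      exact Nat.card_pos
    have h2 : Real.log (Nat.card (Abelianization (G (m j)))) ≤ Real.log ((p : ℝ) ^ 2) := by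
      refine Real.log_le_log (by exact_mod_cast hA1) ?_
      exact_mod_cast (h (m j)).2.2.2
    linarith
  exact ⟨hn, fails (fun j => G (m j)) k C (1 / 2) hn hk hC hkN (by norm_num) hA hG⟩

/-- **Nearly abelian groups, `k ≫ log |G|`.** (1) For all sequences of nearly abelian groups in
the regime of the question and all choices of the generators the walk is far from uniform up to
time `(1 - ε) log |G| / log (k / log |G|)`, and `t_0 (k, |G|)` is at most this time without the
factor `1 - ε`. (2) If moreover `k ≤ (log |G|) ^ C` and `|A| ≤ |G| ^ a` with `a < 1`, then `t_*` is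
smaller than this time by a constant factor, the walk is far from uniform at time `(1 + ε) t_*`
for some `ε > 0` and all generators, and there is no cutoff at `t_*`. (3) Examples among
`p`-groups for every prime `p`. (4) The negated form of the question. -/
theorem result :
    (∀ (G : ℕ → Type) [∀ j, Group (G j)] [∀ j, Fintype (G j)] (k : ℕ → ℕ),
      Tendsto (fun j => Nat.card (G j)) atTop atTop →
      Tendsto (fun j => (k j : ℝ) / Real.log (Nat.card (G j))) atTop atTop →
      Tendsto (fun j => Real.log (k j) / Real.log (Nat.card (G j))) atTop (𝓝 0) →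
      NearlyAbelian G k →
        FarBefore G k ∧ ∀ᶠ j in atTop, t0 (k j) (Nat.card (G j)) ≤ tAb (G j) (k j)) ∧
    (∀ (G : ℕ → Type) [∀ j, Group (G j)] [∀ j, Fintype (G j)] (k : ℕ → ℕ) (C a : ℝ),
      Tendsto (fun j => Nat.card (G j)) atTop atTop →
      Tendsto (fun j => (k j : ℝ) / Real.log (Nat.card (G j))) atTop atTop →
      0 < C → (∀ᶠ j in atTop, (k j : ℝ) ≤ Real.log (Nat.card (G j)) ^ C) →
      a < 1 → (∀ᶠ j in atTop, Real.log (Nat.card (Abelianization (G j))) ≤
        a * Real.log (Nat.card (G j))) →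
      NearlyAbelian G k →
        Tendsto (fun j => Real.log (k j) / Real.log (Nat.card (G j))) atTop (𝓝 0) ∧
        (∃ s : ℝ, s < 1 ∧ ∀ᶠ j in atTop, tStar (G j) (k j) ≤ s * tAb (G j) (k j)) ∧
        FarBefore G k ∧ FarAtTStar G k ∧ ¬ CutoffWhpAt G k (fun j => tStar (G j) (k j))) ∧
    (∀ p : ℕ, p.Prime → ∃ (G : ℕ → Type) (_ : ∀ m, Group (G m)) (_ : ∀ m, Fintype (G m)),
      (∀ m, Nat.card (G m) = p ^ (m * (p - 1) + 1) ∧
        Nat.card (Abelianization (G m)) ≤ p ^ 2 ∧
        ∃ B : Subgroup (G m), B.index = p ∧ ∀ a ∈ B, ∀ b ∈ B, a * b = b * a) ∧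
      ∀ (m k : ℕ → ℕ) (C : ℝ), Tendsto m atTop atTop → 0 < C →
        Tendsto (fun j => (k j : ℝ) / Real.log (Nat.card (G (m j)))) atTop atTop →
        (∀ᶠ j in atTop, (k j : ℝ) ≤ Real.log (Nat.card (G (m j))) ^ C) →
        Tendsto (fun j => Nat.card (G (m j))) atTop atTop ∧
        Tendsto (fun j => Real.log (k j) / Real.log (Nat.card (G (m j)))) atTop (𝓝 0) ∧
        (∃ s : ℝ, s < 1 ∧
          ∀ᶠ j in atTop, tStar (G (m j)) (k j) ≤ s * tAb (G (m j)) (k j)) ∧
        FarBefore (fun j => G (m j)) k ∧ FarAtTStar (fun j => G (m j)) k ∧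
        ¬ CutoffWhpAt (fun j => G (m j)) k (fun j => tStar (G (m j)) (k j))) ∧
    (∃ (G : ℕ → Type) (_ : ∀ j, Group (G j)) (_ : ∀ j, Fintype (G j)) (k : ℕ → ℕ),
      Tendsto (fun j => Nat.card (G j)) atTop atTop ∧
      Tendsto (fun j => Real.log (k j)) atTop atTop ∧
      Tendsto (fun j => Real.log (k j) / Real.log (Nat.card (G j))) atTop (𝓝 0) ∧
      Tendsto (fun j => (k j : ℝ) / Real.log (Nat.card (G j))) atTop atTop ∧
      ¬ CutoffWhpAt G k (fun j => tStar (G j) (k j))) := by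
  refine ⟨fun G _ _ k h1 h2 h3 h4 => ⟨far G k h1 h2 h3 h4, t0_le_tAb G k h1 h2⟩,
    fun G _ _ k C a h1 h2 h3 h4 h5 h6 h7 => fails G k C a h1 h2 h3 h4 h5 h6 h7, family, ?_⟩
  exact ⟨fun j => DihedralGroup (2 ^ j), inferInstance, inferInstance,
    Pool.Agent.H632R3.Dih.kk, Pool.Agent.H632R3.Dih.card_tendsto, Pool.Agent.H632R3.Dih.kk_log,
    Pool.Agent.H632R3.Dih.kk_log_div, Pool.Agent.H632R3.Dih.kk_div,
    Pool.Agent.H632R3.Dih.noCutoff (fun j => 2 ^ j) Pool.Agent.H632R3.Dih.kk
      Pool.Agent.H632R3.Dih.kk_tendsto (by norm_num : (0 : ℝ) < 3) Pool.Agent.H632R3.Dih.kk_le⟩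

end Pool.Agent.Results.MP_d87a8f_pr.NearlyAbelianGroups
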