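import Mathlib
import Pool.Agent.H632R3.DihFam

open Filter Topology
open Pool.Agent.H632R3.RCG Pool.Agent.H632R3.Dih

namespace Pool.Agent.Results.MP_d87a8f_pr.DihedralManyGenerators

/-- Cutoff whp at `t_*` fails in the regime `k ≫ log |G|`: for the dihedral groups of order
`2 * N` and all numbers of generators `k ≫ log |G|` that are at most a power of `log |G|`, the
walk is far from uniform at time `(1 + ε) t_*`, for every choice of the generators. -/
theorem result :
    (∃ (G : ℕ → Type) (_ : ∀ j, Group (G j)) (_ : ∀ j, Fintype (G j)) (k : ℕ → ℕ),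
      Tendsto (fun j => Nat.card (G j)) atTop atTop ∧
      Tendsto (fun j => Real.log (k j)) atTop atTop ∧
      Tendsto (fun j => Real.log (k j) / Real.log (Nat.card (G j))) atTop (𝓝 0) ∧
      Tendsto (fun j => (k j : ℝ) / Real.log (Nat.card (G j))) atTop atTop ∧
      ¬ CutoffWhpAt G k (fun j => tStar (G j) (k j))) ∧
    (∀ (N k : ℕ → ℕ) (_ : ∀ j, NeZero (N j)) (C : ℝ), 0 < C →
      Tendsto (fun j => (k j : ℝ) / Real.log (Nat.card (DihedralGroup (N j)))) atTop atTop →
      (∀ᶠ j in atTop, (k j : ℝ) ≤ Real.log (Nat.card (DihedralGroup (N j))) ^ C) →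
      Tendsto (fun j => Nat.card (DihedralGroup (N j))) atTop atTop ∧
      Tendsto (fun j => Real.log (k j) / Real.log (Nat.card (DihedralGroup (N j)))) atTop
        (𝓝 0) ∧
      (∃ ε : ℝ, 0 < ε ∧ ε < 1 ∧ ∀ δ : ℝ, 0 < δ → ∀ᶠ j in atTop,
        ∀ Z : Fin (k j) → DihedralGroup (N j),
          1 - δ ≤ tvDist Z ((1 + ε) * tStar (DihedralGroup (N j)) (k j))) ∧
      ¬ CutoffWhpAt (fun j => DihedralGroup (N j)) k
        (fun j => tStar (DihedralGroup (N j)) (k j))) := by
  constructor
  · exact ⟨fun j => DihedralGroup (2 ^ j), inferInstance, inferInstance, kk, card_tendsto,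
      kk_log, kk_log_div, kk_div,
      noCutoff (fun j => 2 ^ j) kk kk_tendsto (by norm_num : (0 : ℝ) < 3) kk_le⟩
  · intro N k hN C hC hk0 hkN
    have hk : Tendsto k atTop atTop := by
      rw [← tendsto_natCast_atTop_iff (R := ℝ)]
      have h2 : (0 : ℝ) < Real.log 2 := Real.log_pos (by norm_num)
      refine tendsto_atTop_mono (fun j => ?_) (hk0.atTop_mul_const h2)
      have h3 : Real.log 2 ≤ Real.log (Nat.card (DihedralGroup (N j))) := by
        refine Real.log_le_log (by norm_num) ?_
        rw [card_G]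
        have : 1 ≤ N j := Nat.pos_of_ne_zero (NeZero.ne _)
        exact_mod_cast (by omega : 2 ≤ 2 * N j)
      have h4 : 0 < Real.log (Nat.card (DihedralGroup (N j))) := lt_of_lt_of_le h2 h3
      calc (k j : ℝ) / Real.log (Nat.card (DihedralGroup (N j))) * Real.log 2
          ≤ (k j : ℝ) / Real.log (Nat.card (DihedralGroup (N j))) *
            Real.log (Nat.card (DihedralGroup (N j))) :=
              mul_le_mul_of_nonneg_left h3 (div_nonneg (Nat.cast_nonneg _) h4.le)
        _ = (k j : ℝ) := div_mul_cancel₀ _ h4.ne'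
    have hkN' : ∀ᶠ j in atTop, (k j : ℝ) ≤ Real.log (2 * (N j : ℝ)) ^ C := by
      filter_upwards [hkN] with j h1
      rw [card_G] at h1
      push_cast at h1 ⊢
      exact h1
    exact ⟨card_tendsto' N k hk hC hkN', log_div_tendsto N k hk hC hkN',
      family N k hk hC hkN', noCutoff N k hk hC hkN'⟩

end Pool.Agent.Results.MP_d87a8f_pr.DihedralManyGenerators
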