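import Pool.Agent.Y571.UB.Crit
import Pool.Agent.Y419.UB.Ent
import Pool.Agent.Y794.UB.T0
import Pool.Agent.Y571.NC.Two
import Pool.Agent.Y171.NC.Reach

/-!
# MP_d87a8f_pr: exact cutoff times for random Cayley graphs of nearly abelian groups

The law of the walk, its total variation distance `tvDist`, the entropic time `t0`, `tStar` and
`CutoffWhpAt` are those of `Pool.Agent.H632R3.RCG`.
-/

set_option autoImplicit false

open Filter Topology
open Pool.Agent.H632R3.RCG
open Pool.Agent.Y571.NC (Two)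

namespace Pool.Agent.Results.MP_d87a8f_pr.ExactCutoff

/-- `G j` has a subgroup `B j` of index `κ j ^ o(1)`, `κ = k / log |G|`, whose commutators lie in
a normal subgroup `N j` of `G j` of order `|G j| ^ o(1)`. (For instance `N j` trivial and `B j`
abelian of bounded index.) -/
def NearlyAbelian (G : ℕ → Type) [∀ j, Group (G j)] (k : ℕ → ℕ) : Prop :=
  ∃ N B : ∀ j, Subgroup (G j), (∀ j, (N j).Normal) ∧
    (∀ j, ∀ a ∈ B j, ∀ b ∈ B j, a * b * a⁻¹ * b⁻¹ ∈ N j) ∧
    Tendsto (fun j => Real.log (B j).index / Real.log (k j / Real.log (Nat.card (G j)))) atTop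
      (𝓝 0) ∧
    Tendsto (fun j => Real.log (Nat.card (N j)) / Real.log (Nat.card (G j))) atTop (𝓝 0)

/-- The time `log |G| / log (k / log |G|)`. -/
noncomputable def tAb (G : Type) (k : ℕ) : ℝ :=
  Real.log (Nat.card G) / Real.log (k / Real.log (Nat.card G))

theorem tStar_nonneg (G : Type) [Group G] [Fintype G] (k : ℕ) : 0 ≤ tStar G k :=
  (t0_nonneg _ _).trans (le_max_left _ _)

theorem exact (G : ℕ → Type) [∀ j, Group (G j)] [∀ j, Fintype (G j)] (k : ℕ → ℕ)
    (hn : Tendsto (fun j => Nat.card (G j)) atTop atTop)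
    (hk : Tendsto (fun j => (k j : ℝ) / Real.log (Nat.card (G j))) atTop atTop)
    (hkG : Tendsto (fun j => Real.log (k j) / Real.log (Nat.card (G j))) atTop (𝓝 0))
    (hG : NearlyAbelian G k) (u : ℕ → ℝ) (hu : ∀ᶠ j in atTop, 0 ≤ u j) :
    CutoffWhpAt G k u ↔ Tendsto (fun j => u j / tAb (G j) (k j)) atTop (𝓝 1) := by
  obtain ⟨N, B, hN, hB, hr, hm⟩ := hG
  refine Pool.Agent.Y571.UB.cutoff_iff G k (fun j => tAb (G j) (k j))
    ((Pool.Agent.Y571.UB.tEnt_tendsto G k hn hk hkG).eventually_gt_atTop 0)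
    (fun ε δ δ' h1 h2 h3 h4 => Pool.Agent.Y571.UB.upper G k hn hk hkG ε δ δ' h1 h2 h3 h4)
    (fun s hs δ hδ => ?_) u hu
  exact Pool.Agent.Y571.NC.core2 G N B k Pool.Agent.Y171.NC.reach hB hn hk hkG hr hm hs hδ

/-- No cutoff at `t_*` if it is smaller than `tAb` by a constant factor. -/
theorem not_at (G : ℕ → Type) [∀ j, Group (G j)] [∀ j, Fintype (G j)] (k : ℕ → ℕ)
    (hn : Tendsto (fun j => Nat.card (G j)) atTop atTop)
    (hk : Tendsto (fun j => (k j : ℝ) / Real.log (Nat.card (G j))) atTop atTop)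
    (hkG : Tendsto (fun j => Real.log (k j) / Real.log (Nat.card (G j))) atTop (𝓝 0))
    {s : ℝ} (hs : s < 1) (h : ∀ᶠ j in atTop, tStar (G j) (k j) ≤ s * tAb (G j) (k j)) :
    ¬ Tendsto (fun j => tStar (G j) (k j) / tAb (G j) (k j)) atTop (𝓝 1) := by
  intro h1
  have h2 := (Pool.Agent.Y571.UB.tEnt_tendsto G k hn hk hkG).eventually_gt_atTop 0
  obtain ⟨j, h3, h4, h5⟩ := ((h1.eventually_const_lt hs).and (h2.and h)).exists
  have h6 : 0 < tAb (G j) (k j) := h4
  rw [lt_div_iff₀ h6] at h3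
  linarith

theorem at_tAb (G : ℕ → Type) [∀ j, Group (G j)] [∀ j, Fintype (G j)] (k : ℕ → ℕ)
    (hn : Tendsto (fun j => Nat.card (G j)) atTop atTop)
    (hk : Tendsto (fun j => (k j : ℝ) / Real.log (Nat.card (G j))) atTop atTop)
    (hkG : Tendsto (fun j => Real.log (k j) / Real.log (Nat.card (G j))) atTop (𝓝 0))
    (hG : NearlyAbelian G k) : CutoffWhpAt G k (fun j => tAb (G j) (k j)) := by
  have h2 : ∀ᶠ j in atTop, 0 < tAb (G j) (k j) :=
    (Pool.Agent.Y571.UB.tEnt_tendsto G k hn hk hkG).eventually_gt_atTop 0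
  refine (exact G k hn hk hkG hG _ (h2.mono fun _ h => h.le)).2 ?_
  refine tendsto_const_nhds.congr' ?_
  filter_upwards [h2] with j h3
  exact (div_self h3.ne').symm

/-- Conclusion for one sequence of groups: cutoff exactly at the times asymptotic to `tAb`; `t_*`
is smaller than `tAb` by a constant factor, and there is no cutoff at `t_*`. -/
theorem violates (G : ℕ → Type) [∀ j, Group (G j)] [∀ j, Fintype (G j)] (k : ℕ → ℕ) (C a : ℝ)
    (hn : Tendsto (fun j => Nat.card (G j)) atTop atTop)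
    (hk : Tendsto (fun j => (k j : ℝ) / Real.log (Nat.card (G j))) atTop atTop)
    (hC : 0 < C) (hkN : ∀ᶠ j in atTop, (k j : ℝ) ≤ Real.log (Nat.card (G j)) ^ C)
    (ha : a < 1)
    (hA : ∀ᶠ j in atTop, Real.log (Nat.card (Abelianization (G j))) ≤
      a * Real.log (Nat.card (G j)))
    (hG : NearlyAbelian G k) :
    Tendsto (fun j => Real.log (k j) / Real.log (Nat.card (G j))) atTop (𝓝 0) ∧
      CutoffWhpAt G k (fun j => tAb (G j) (k j)) ∧
      (∃ s : ℝ, s < 1 ∧ ∀ᶠ j in atTop, tStar (G j) (k j) ≤ s * tAb (G j) (k j)) ∧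
      ¬ CutoffWhpAt G k (fun j => tStar (G j) (k j)) := by
  have hell : Tendsto (fun j => Real.log (Nat.card (G j))) atTop atTop :=
    Real.tendsto_log_atTop.comp (tendsto_natCast_atTop_atTop.comp hn)
  have hk' : Tendsto k atTop atTop := by
    rw [← tendsto_natCast_atTop_iff (R := ℝ)]
    refine tendsto_atTop_mono' _ ?_ hk
    filter_upwards [hell.eventually_ge_atTop 1] with j h1
    exact div_le_self (Nat.cast_nonneg _) h1
  have hkG := Pool.Agent.Y571.NC.log_div_tendsto G k hk' hC hkN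
  obtain ⟨s, hs0, hs1, hs⟩ := Pool.Agent.Y571.NC.tStar_le G k hn hk hC hkN ha hA
  refine ⟨hkG, at_tAb G k hn hk hkG hG, ⟨s, hs1, hs⟩, fun hc => ?_⟩
  exact not_at G k hn hk hkG hs1 hs ((exact G k hn hk hkG hG _
    (Eventually.of_forall fun j => tStar_nonneg (G j) (k j))).1 hc)

/-- A subgroup of index at most a constant with trivial commutators. -/
theorem nearly_of (G : ℕ → Type) [∀ j, Group (G j)] [∀ j, Fintype (G j)] (k : ℕ → ℕ)
    (hk : Tendsto (fun j => (k j : ℝ) / Real.log (Nat.card (G j))) atTop atTop)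
    (p : ℕ) (B : ∀ j, Subgroup (G j)) (hB : ∀ j, ∀ a ∈ B j, ∀ b ∈ B j, a * b = b * a)
    (hi : ∀ j, (B j).index = p) : NearlyAbelian G k := by
  have hlκ : Tendsto (fun j => Real.log (k j / Real.log (Nat.card (G j)))) atTop atTop :=
    Real.tendsto_log_atTop.comp hk
  refine ⟨fun _ => ⊥, B, fun _ => inferInstance, ?_, ?_, ?_⟩
  · intro j a ha b hb
    rw [Subgroup.mem_bot, hB j a ha b hb]
    group
  · have h1 : Tendsto (fun j => Real.log p /
        Real.log (k j / Real.log (Nat.card (G j)))) atTop (𝓝 0) :=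
      tendsto_const_nhds.div_atTop hlκ
    refine h1.congr fun j => ?_
    rw [hi j]
  · have h1 : (fun j => Real.log (Nat.card ((⊥ : Subgroup (G j)))) /
        Real.log (Nat.card (G j))) = fun _ => (0 : ℝ) := by
      funext j
      rw [Subgroup.card_bot]
      simp
    rw [h1]
    exact tendsto_const_nhds

theorem two (p : ℕ) [Fact p.Prime] (m k : ℕ → ℕ) (C : ℝ) (hm : Tendsto m atTop atTop)
    (hC : 0 < C)
    (hk : Tendsto (fun j => (k j : ℝ) / Real.log (Nat.card (Two p (m j)))) atTop atTop)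
    (hkN : ∀ᶠ j in atTop, (k j : ℝ) ≤ Real.log (Nat.card (Two p (m j))) ^ C) :
    Tendsto (fun j => Nat.card (Two p (m j))) atTop atTop ∧
      Tendsto (fun j => Real.log (k j) / Real.log (Nat.card (Two p (m j)))) atTop (𝓝 0) ∧
      CutoffWhpAt (fun j => Two p (m j)) k (fun j => tAb (Two p (m j)) (k j)) ∧
      (∃ s : ℝ, s < 1 ∧ ∀ᶠ j in atTop, tStar (Two p (m j)) (k j) ≤
        s * tAb (Two p (m j)) (k j)) ∧
      ¬ CutoffWhpAt (fun j => Two p (m j)) k (fun j => tStar (Two p (m j)) (k j)) := by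
  have hp : p.Prime := Fact.out
  have hp2 : 2 ≤ p := hp.two_le
  have hp0 : (1 : ℝ) < p := by exact_mod_cast hp.one_lt
  have hn : Tendsto (fun j => Nat.card (Two p (m j))) atTop atTop := by
    refine tendsto_atTop_mono (fun j => ?_) hm
    rw [Two.card]
    have h1 : m j < p ^ m j := Nat.lt_pow_self (by omega)
    have h2 : p ^ m j ≤ p ^ (2 * m j + 1) := Nat.pow_le_pow_right (by omega) (by omega)
    omega
  have hG : NearlyAbelian (fun j => Two p (m j)) k :=
    nearly_of (fun j => Two p (m j)) k hk p (fun j => (Two.cHom p (m j)).ker)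
      (fun j a ha b hb => Two.ker_comm a ha b hb) (fun j => Two.ker_index)
  have hA : ∀ᶠ j in atTop, Real.log (Nat.card (Abelianization (Two p (m j)))) ≤
      3 / 4 * Real.log (Nat.card (Two p (m j))) := by
    filter_upwards [hm.eventually_ge_atTop 1] with j h1
    have hA1 : 1 ≤ Nat.card (Abelianization (Two p (m j))) := by
      have : Finite (Abelianization (Two p (m j))) :=
        Finite.of_surjective _ (QuotientGroup.mk_surjective)
      exact Nat.card_pos
    have h2 : Real.log (Nat.card (Abelianization (Two p (m j)))) ≤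
        Real.log ((p : ℝ) ^ (m j + 1)) := by
      refine Real.log_le_log (by exact_mod_cast hA1) ?_
      exact_mod_cast Two.card_ab
    have h3 : Real.log (Nat.card (Two p (m j))) = (2 * (m j : ℝ) + 1) * Real.log p := by
      rw [Two.card]
      push_cast
      rw [Real.log_pow]
      push_cast
      ring
    have hlp : 0 < Real.log p := Real.log_pos hp0
    have hmj : (1 : ℝ) ≤ m j := by exact_mod_cast h1
    rw [Real.log_pow] at h2
    push_cast at h2
    rw [h3]
    nlinarith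
  exact ⟨hn, violates (fun j => Two p (m j)) k C (3 / 4) hn hk hC hkN (by norm_num) hA hG⟩


/-- Cutoff at `t_0 (k, |G|)`. -/
theorem at_t0 (G : ℕ → Type) [∀ j, Group (G j)] [∀ j, Fintype (G j)] (k : ℕ → ℕ)
    (hn : Tendsto (fun j => Nat.card (G j)) atTop atTop)
    (hk : Tendsto (fun j => (k j : ℝ) / Real.log (Nat.card (G j))) atTop atTop)
    (hkG : Tendsto (fun j => Real.log (k j) / Real.log (Nat.card (G j))) atTop (𝓝 0))
    (hG : NearlyAbelian G k) : CutoffWhpAt G k (fun j => t0 (k j) (Nat.card (G j))) :=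
  (exact G k hn hk hkG hG _ (Eventually.of_forall fun _ => t0_nonneg _ _)).2
    (Pool.Agent.Y571.UB.t0_ratio G k Pool.Agent.Y794.UB.t0low Pool.Agent.Y419.UB.Ent.ent hn hk)

/-- The criterion. -/
theorem criterion (G : ℕ → Type) [∀ j, Group (G j)] [∀ j, Fintype (G j)] (k : ℕ → ℕ) (C : ℝ)
    (hn : Tendsto (fun j => Nat.card (G j)) atTop atTop)
    (hk : Tendsto (fun j => (k j : ℝ) / Real.log (Nat.card (G j))) atTop atTop)
    (hC : 0 < C) (hkN : ∀ᶠ j in atTop, (k j : ℝ) ≤ Real.log (Nat.card (G j)) ^ C)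
    (hG : NearlyAbelian G k) :
    CutoffWhpAt G k (fun j => tStar (G j) (k j)) ↔
      Tendsto (fun j => Real.log (Nat.card (Abelianization (G j))) /
        Real.log (Nat.card (G j))) atTop (𝓝 1) := by
  have hell : Tendsto (fun j => Real.log (Nat.card (G j))) atTop atTop :=
    Real.tendsto_log_atTop.comp (tendsto_natCast_atTop_atTop.comp hn)
  have hk' : Tendsto k atTop atTop := by
    rw [← tendsto_natCast_atTop_iff (R := ℝ)]
    refine tendsto_atTop_mono' _ ?_ hk
    filter_upwards [hell.eventually_ge_atTop 1] with j h1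
    exact div_le_self (Nat.cast_nonneg _) h1
  have hkG := Pool.Agent.Y571.NC.log_div_tendsto G k hk' hC hkN
  rw [exact G k hn hk hkG hG _ (Eventually.of_forall fun j => tStar_nonneg (G j) (k j))]
  exact ⟨fun h => Pool.Agent.Y571.UB.of_ratio G k hC hn hk hkN
      ((Pool.Agent.Y571.UB.tEnt_tendsto G k hn hk hkG).eventually_gt_atTop 0) h,
    fun h => Pool.Agent.Y571.UB.ratio_of G k Pool.Agent.Y794.UB.t0low
      Pool.Agent.Y419.UB.Ent.ent hn hk h⟩

/-- **Exact cutoff times for nearly abelian groups, `k ≫ log |G|`.** (1) For all sequences of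
nearly abelian groups in the regime of the question there is cutoff whp at the entropic time
`t_0 (k, |G|)`, which is asymptotic to `log |G| / log (k / log |G|)`, and at a sequence of times
`u ≥ 0` if and only if `u` is asymptotic to it; in particular the conjecture holds for the
sequence if and only if `t_*` is asymptotic to this time, and it does if `|A| = |G| ^ (1 - o(1))`.
(2) If `k ≤ (log |G|) ^ C` the conjecture holds for the sequence if and only if
`|A| = |G| ^ (1 - o(1))`. (3) Groups of class two of order `p ^ (2 m + 1)`, for every prime `p`,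
all `m → ∞` and all `k` as in (2), violate the conjecture. (4) The negated form of the question,
with the exact cutoff time of the counterexample. -/
theorem result :
    (∀ (G : ℕ → Type) [∀ j, Group (G j)] [∀ j, Fintype (G j)] (k : ℕ → ℕ),
      Tendsto (fun j => Nat.card (G j)) atTop atTop →
      Tendsto (fun j => (k j : ℝ) / Real.log (Nat.card (G j))) atTop atTop →
      Tendsto (fun j => Real.log (k j) / Real.log (Nat.card (G j))) atTop (𝓝 0) →
      NearlyAbelian G k →
        CutoffWhpAt G k (fun j => t0 (k j) (Nat.card (G j))) ∧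
        Tendsto (fun j => t0 (k j) (Nat.card (G j)) / tAb (G j) (k j)) atTop (𝓝 1) ∧
        (∀ u : ℕ → ℝ, (∀ᶠ j in atTop, 0 ≤ u j) →
          (CutoffWhpAt G k u ↔ Tendsto (fun j => u j / tAb (G j) (k j)) atTop (𝓝 1))) ∧
        (CutoffWhpAt G k (fun j => tStar (G j) (k j)) ↔
          Tendsto (fun j => tStar (G j) (k j) / tAb (G j) (k j)) atTop (𝓝 1)) ∧
        (Tendsto (fun j => Real.log (Nat.card (Abelianization (G j))) /
            Real.log (Nat.card (G j))) atTop (𝓝 1) →
          CutoffWhpAt G k (fun j => tStar (G j) (k j)))) ∧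
    (∀ (G : ℕ → Type) [∀ j, Group (G j)] [∀ j, Fintype (G j)] (k : ℕ → ℕ) (C : ℝ),
      Tendsto (fun j => Nat.card (G j)) atTop atTop →
      Tendsto (fun j => (k j : ℝ) / Real.log (Nat.card (G j))) atTop atTop →
      0 < C → (∀ᶠ j in atTop, (k j : ℝ) ≤ Real.log (Nat.card (G j)) ^ C) →
      NearlyAbelian G k →
        (CutoffWhpAt G k (fun j => tStar (G j) (k j)) ↔
          Tendsto (fun j => Real.log (Nat.card (Abelianization (G j))) /
            Real.log (Nat.card (G j))) atTop (𝓝 1))) ∧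
    (∀ (p : ℕ) [Fact p.Prime],
      (∀ m : ℕ, Nat.card (Two p m) = p ^ (2 * m + 1) ∧
        (∀ a b z : Two p m, a * b * a⁻¹ * b⁻¹ * z = z * (a * b * a⁻¹ * b⁻¹)) ∧
        Nat.card (Abelianization (Two p m)) ≤ p ^ (m + 1)) ∧
      ∀ (m k : ℕ → ℕ) (C : ℝ), Tendsto m atTop atTop → 0 < C →
        Tendsto (fun j => (k j : ℝ) / Real.log (Nat.card (Two p (m j)))) atTop atTop →
        (∀ᶠ j in atTop, (k j : ℝ) ≤ Real.log (Nat.card (Two p (m j))) ^ C) →
        Tendsto (fun j => Nat.card (Two p (m j))) atTop atTop ∧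
        Tendsto (fun j => Real.log (k j) / Real.log (Nat.card (Two p (m j)))) atTop (𝓝 0) ∧
        CutoffWhpAt (fun j => Two p (m j)) k (fun j => tAb (Two p (m j)) (k j)) ∧
        (∃ s : ℝ, s < 1 ∧ ∀ᶠ j in atTop, tStar (Two p (m j)) (k j) ≤
          s * tAb (Two p (m j)) (k j)) ∧
        ¬ CutoffWhpAt (fun j => Two p (m j)) k (fun j => tStar (Two p (m j)) (k j))) ∧
    (∃ (G : ℕ → Type) (_ : ∀ j, Group (G j)) (_ : ∀ j, Fintype (G j)) (k : ℕ → ℕ),
      Tendsto (fun j => Nat.card (G j)) atTop atTop ∧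
      Tendsto (fun j => (k j : ℝ) / Real.log (Nat.card (G j))) atTop atTop ∧
      Tendsto (fun j => Real.log (k j) / Real.log (Nat.card (G j))) atTop (𝓝 0) ∧
      CutoffWhpAt G k (fun j => tAb (G j) (k j)) ∧
      ¬ CutoffWhpAt G k (fun j => tStar (G j) (k j))) := by
  refine ⟨fun G _ _ k h1 h2 h3 h4 => ⟨at_t0 G k h1 h2 h3 h4,
      Pool.Agent.Y571.UB.t0_ratio G k Pool.Agent.Y794.UB.t0low Pool.Agent.Y419.UB.Ent.ent h1 h2,
      fun u hu => exact G k h1 h2 h3 h4 u hu,
      exact G k h1 h2 h3 h4 _ (Eventually.of_forall fun j => tStar_nonneg (G j) (k j)),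
      fun hA => (exact G k h1 h2 h3 h4 _
        (Eventually.of_forall fun j => tStar_nonneg (G j) (k j))).2
        (Pool.Agent.Y571.UB.ratio_of G k Pool.Agent.Y794.UB.t0low
          Pool.Agent.Y419.UB.Ent.ent h1 h2 hA)⟩,
    fun G _ _ k C h1 h2 h3 h4 h5 => criterion G k C h1 h2 h3 h4 h5,
    fun p _ => ⟨fun m => ⟨Two.card, Two.class_two, Two.card_ab⟩,
      fun m k C h1 h2 h3 h4 => two p m k C h1 h2 h3 h4⟩, ?_⟩
  have h2 : Fact (Nat.Prime 2) := ⟨Nat.prime_two⟩
  have hl2 : 0 < Real.log 2 := Real.log_pos (by norm_num)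
  have hcard : ∀ j : ℕ, Real.log (Nat.card (Two 2 j)) = (2 * (j : ℝ) + 1) * Real.log 2 := by
    intro j
    rw [Two.card]
    push_cast
    rw [Real.log_pow]
    push_cast
    ring
  have hk : Tendsto (fun j : ℕ => (((j + 1) ^ 2 : ℕ) : ℝ) / Real.log (Nat.card (Two 2 j))) atTop
      atTop := by
    have h3 : Tendsto (fun j : ℕ => ((j : ℝ) + 1) * (1 / (2 * Real.log 2))) atTop atTop :=
      (tendsto_atTop_add_const_right _ 1 tendsto_natCast_atTop_atTop).atTop_mul_const
        (by positivity)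
    refine tendsto_atTop_mono (fun j => ?_) h3
    have h4 : 0 < Real.log (Nat.card (Two 2 j)) := by rw [hcard]; positivity
    rw [le_div_iff₀ h4, hcard]
    push_cast
    have h5 : ((j : ℝ) + 1) * (1 / (2 * Real.log 2)) * ((2 * (j : ℝ) + 1) * Real.log 2) =
        ((j : ℝ) + 1) * ((2 * (j : ℝ) + 1) / 2) := by field_simp
    rw [h5]
    have : (0 : ℝ) ≤ j := Nat.cast_nonneg _
    nlinarith
  have hkN : ∀ᶠ j : ℕ in atTop, (((j + 1) ^ 2 : ℕ) : ℝ) ≤
      Real.log (Nat.card (Two 2 j)) ^ (3 : ℝ) := by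
    filter_upwards [eventually_ge_atTop 7] with j hj
    rw [hcard]
    have h1 : (7 : ℝ) ≤ j := by exact_mod_cast hj
    have h3 := Real.log_two_gt_d9
    have h4 : (j : ℝ) + 1 ≤ (2 * (j : ℝ) + 1) * Real.log 2 := by nlinarith
    have h5 : ((j : ℝ) + 1) ^ (3 : ℝ) ≤ ((2 * (j : ℝ) + 1) * Real.log 2) ^ (3 : ℝ) :=
      Real.rpow_le_rpow (by linarith) h4 (by norm_num)
    have h6 : ((j : ℝ) + 1) ^ (3 : ℝ) = ((j : ℝ) + 1) ^ (3 : ℕ) := by
      rw [← Real.rpow_natCast ((j : ℝ) + 1) 3, Nat.cast_ofNat]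
    rw [h6] at h5
    push_cast
    nlinarith [sq_nonneg ((j : ℝ) + 1)]
  have h := two 2 (fun j => j) (fun j => (j + 1) ^ 2) 3 tendsto_id (by norm_num) hk hkN
  exact ⟨fun j => Two 2 j, inferInstance, inferInstance, fun j => (j + 1) ^ 2,
    h.1, hk, h.2.1, h.2.2.1, h.2.2.2.2⟩

end Pool.Agent.Results.MP_d87a8f_pr.ExactCutoff
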